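import Mathlib

/-!
# Property (A) does not imply unconditionality
-/

namespace Pool.Agent.Results.MP_e9a5f2_an.PropertyANotUnconditional

open Finset

/-- A semi-normalized Markushevich basis of a normed space: vectors `vec n`, biorthogonal
functionals `coord n` separating points, dense linear span, uniformly bounded norms. -/
structure MBasis (𝕜 : Type*) [RCLike 𝕜] (X : Type*) [NormedAddCommGroup X] [NormedSpace 𝕜 X] where
  vec : ℕ → X
  coord : ℕ → X →L[𝕜] 𝕜
  biorth : ∀ i j, coord i (vec j) = if i = j then 1 else 0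
  total : (Submodule.span 𝕜 (Set.range vec)).topologicalClosure = ⊤
  separating : ∀ x, (∀ n, coord n x = 0) → x = 0
  bounded : ∃ C : ℝ, ∀ n, ‖vec n‖ ≤ C ∧ ‖coord n‖ ≤ C

/-- Property (A), symmetry for largest coefficients. -/
def PropertyA {𝕜 : Type*} [RCLike 𝕜] {X : Type*} [NormedAddCommGroup X] [NormedSpace 𝕜 X]
    (B : MBasis 𝕜 X) : Prop :=
  ∀ (x : X) (A A' : Finset ℕ) (ε η : ℕ → 𝕜),
    (∀ n, ‖B.coord n x‖ ≤ 1) → A.card = A'.card → Disjoint A A' →
    (∀ n ∈ A ∪ A', B.coord n x = 0) →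
    (∀ n ∈ A, ‖ε n‖ = 1) → (∀ n ∈ A', ‖η n‖ = 1) →
    ‖x + ∑ n ∈ A, ε n • B.vec n‖ = ‖x + ∑ n ∈ A', η n • B.vec n‖

/-- Unconditional basis: `∑ coord n x • vec n` converges unconditionally to `x` for every `x`. -/
def Unconditional {𝕜 : Type*} [RCLike 𝕜] {X : Type*} [NormedAddCommGroup X] [NormedSpace 𝕜 X]
    (B : MBasis 𝕜 X) : Prop :=
  ∀ x : X, HasSum (fun n => B.coord n x • B.vec n) x

/-! ### The quantity `Φ` -/

section Phi

variable {𝕜 : Type*} [RCLike 𝕜]

/-- weights -/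
noncomputable def c (k n : ℕ) : ℝ := (√((n : ℝ) + k + 1))⁻¹

theorem c_pos (k n : ℕ) : 0 < c k n := by
  unfold c; positivity

theorem c_succ (k n : ℕ) : c (k + 1) n = c k (n + 1) := by
  unfold c; push_cast; ring_nf

theorem c_anti (k n : ℕ) : c k (n + 1) ≤ c k n := by
  unfold c
  apply inv_anti₀ (by positivity)
  apply Real.sqrt_le_sqrt
  push_cast; linarith

theorem c_le (k n : ℕ) : c k n ≤ (√((k : ℝ) + 1))⁻¹ := by
  unfold c
  apply inv_anti₀ (by positivity)
  apply Real.sqrt_le_sqrt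
  have : (0 : ℝ) ≤ n := by positivity
  linarith

theorem c_le' (k n : ℕ) : c k n ≤ (√((n : ℝ) + 1))⁻¹ := by
  unfold c
  apply inv_anti₀ (by positivity)
  apply Real.sqrt_le_sqrt
  have : (0 : ℝ) ≤ k := by positivity
  linarith

theorem c_le_one (k n : ℕ) : c k n ≤ 1 := by
  refine (c_le k n).trans ?_
  apply inv_le_one_of_one_le₀
  rw [Real.one_le_sqrt]
  have : (0 : ℝ) ≤ k := by positivity
  linarith

/-- square function on `D` -/
noncomputable def sq (D : Finset ℕ) (z : ℕ → 𝕜) : ℝ := √(∑ n ∈ D, ‖z n‖ ^ 2)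

/-- conditional part -/
noncomputable def T (D : Finset ℕ) (k N : ℕ) (z : ℕ → 𝕜) : 𝕜 :=
  ∑ n ∈ range N \ D, ((c k n : ℝ) : 𝕜) * z n

/-- The quantity whose supremum is the norm. -/
noncomputable def Phi (D : Finset ℕ) (k N : ℕ) (z : ℕ → 𝕜) : ℝ :=
  sq D z + 1 / 4 * ‖T D k N z‖

theorem sum_c_diff_le (k N : ℕ) : ∑ n ∈ range N, (c k n - c (k + 1) n) ≤ (√((k : ℝ) + 1))⁻¹ := by
  have : ∑ n ∈ range N, (c k n - c (k + 1) n) = c k 0 - c k N := by
    simp_rw [c_succ]
    exact Finset.sum_range_sub' (fun n => c k n) N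
  rw [this]
  have h1 := c_pos k N
  have h2 := c_le k 0
  linarith

theorem Phi_step (z : ℕ → 𝕜) (hz : ∀ n, ‖z n‖ ≤ 1) (D : Finset ℕ) (k N : ℕ) (hD : D.card ≤ k)
    (a : ℕ) (ha : a ∉ D) (hza : ‖z a‖ = 1) :
    Phi D k N z ≤ Phi (insert a D) (k + 1) N z := by
  have hS : ∑ n ∈ D, ‖z n‖ ^ 2 ≤ k := by
    calc ∑ n ∈ D, ‖z n‖ ^ 2 ≤ ∑ n ∈ D, (1 : ℝ) :=
          Finset.sum_le_sum fun n _ => pow_le_one₀ (norm_nonneg _) (hz n)
      _ = D.card := by simp
      _ ≤ k := by exact_mod_cast hD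
  have hS0 : 0 ≤ ∑ n ∈ D, ‖z n‖ ^ 2 := by positivity
  set S := ∑ n ∈ D, ‖z n‖ ^ 2 with hSdef
  have hins : sq (insert a D) z = √(S + 1) := by
    unfold sq
    rw [Finset.sum_insert ha, hza]
    congr 1
    ring
  have hD' : sq D z = √S := rfl
  have hk : 0 < √((k : ℝ) + 1) := by positivity
  have hsq : 1 / (2 * √((k : ℝ) + 1)) ≤ √(S + 1) - √S := by
    have h1 : √(S + 1) ≤ √((k : ℝ) + 1) := Real.sqrt_le_sqrt (by linarith)
    have h2 : √S ≤ √(S + 1) := Real.sqrt_le_sqrt (by linarith)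
    have h3 : √(S + 1) * √(S + 1) = S + 1 := Real.mul_self_sqrt (by linarith)
    have h4 : √S * √S = S := Real.mul_self_sqrt hS0
    rw [div_le_iff₀ (by positivity)]
    have h5 : (√(S + 1) - √S) * (√(S + 1) + √S) = 1 := by linear_combination h3 - h4
    have h6 : 0 ≤ √(S + 1) - √S := by linarith
    nlinarith
  have hT : ‖T D k N z‖ ≤ ‖T (insert a D) (k + 1) N z‖ + 2 * (√((k : ℝ) + 1))⁻¹ := by
    have hsub : T D k N z = T (insert a D) (k + 1) N z +
        ((∑ n ∈ range N \ insert a D, ((c k n - c (k + 1) n : ℝ) : 𝕜) * z n) +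
        (if a ∈ range N then ((c k a : ℝ) : 𝕜) * z a else 0)) := by
      unfold T
      rw [← add_assoc, ← Finset.sum_add_distrib]
      have e1 : ∑ n ∈ range N \ insert a D, (((c (k + 1) n : ℝ) : 𝕜) * z n +
          ((c k n - c (k + 1) n : ℝ) : 𝕜) * z n) =
          ∑ n ∈ range N \ insert a D, ((c k n : ℝ) : 𝕜) * z n := by
        refine Finset.sum_congr rfl fun n _ => ?_
        push_cast
        ring
      rw [e1]
      split_ifs with h
      · have : range N \ D = insert a (range N \ insert a D) := by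
          ext n
          simp only [mem_sdiff, mem_insert, mem_range] at *
          constructor
          · rintro ⟨h1, h2⟩
            by_cases hn : n = a
            · exact Or.inl hn
            · exact Or.inr ⟨h1, fun h3 => h3.elim hn h2⟩
          · rintro (h1 | ⟨h1, h2⟩)
            · subst h1; exact ⟨h, ha⟩
            · exact ⟨h1, fun h3 => h2 (Or.inr h3)⟩
        rw [this, Finset.sum_insert (by simp), add_comm]
      · have : range N \ D = range N \ insert a D := by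
          ext n
          simp only [mem_sdiff, mem_insert, mem_range] at *
          constructor
          · rintro ⟨h1, h2⟩
            refine ⟨h1, fun h3 => h3.elim (fun h4 => h (h4 ▸ h1)) h2⟩
          · rintro ⟨h1, h2⟩
            exact ⟨h1, fun h3 => h2 (Or.inr h3)⟩
        rw [this, add_zero]
    rw [hsub]
    refine (norm_add_le _ _).trans ?_
    gcongr
    refine (norm_add_le _ _).trans ?_
    have b1 : ‖∑ n ∈ range N \ insert a D, ((c k n - c (k + 1) n : ℝ) : 𝕜) * z n‖ ≤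
        (√((k : ℝ) + 1))⁻¹ := by
      refine (norm_sum_le _ _).trans ?_
      refine le_trans ?_ (sum_c_diff_le k N)
      have hnn : ∀ n, 0 ≤ c k n - c (k + 1) n := fun n => by
        rw [c_succ]; linarith [c_anti k n]
      calc ∑ n ∈ range N \ insert a D, ‖((c k n - c (k + 1) n : ℝ) : 𝕜) * z n‖
          ≤ ∑ n ∈ range N \ insert a D, (c k n - c (k + 1) n) := by
            refine Finset.sum_le_sum fun n _ => ?_
            rw [norm_mul, RCLike.norm_ofReal, abs_of_nonneg (hnn n)]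
            exact mul_le_of_le_one_right (hnn n) (hz n)
        _ ≤ ∑ n ∈ range N, (c k n - c (k + 1) n) :=
            Finset.sum_le_sum_of_subset_of_nonneg Finset.sdiff_subset fun n _ _ => hnn n
    have b2 : ‖(if a ∈ range N then ((c k a : ℝ) : 𝕜) * z a else 0)‖ ≤ (√((k : ℝ) + 1))⁻¹ := by
      split_ifs
      · rw [norm_mul, RCLike.norm_ofReal, hza, mul_one, abs_of_pos (c_pos k a)]
        exact c_le k a
      · simp
    linarith
  unfold Phi
  rw [hins, hD']
  have : 1 / (2 * √((k : ℝ) + 1)) = 1 / 4 * (2 * (√((k : ℝ) + 1))⁻¹) := by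
    field_simp
    norm_num
  linarith

theorem Phi_union (z : ℕ → 𝕜) (hz : ∀ n, ‖z n‖ ≤ 1) (N : ℕ) (A : Finset ℕ)
    (hA : ∀ a ∈ A, ‖z a‖ = 1) :
    ∀ (D : Finset ℕ) (k : ℕ), D.card ≤ k →
      ∃ k', (D ∪ A).card ≤ k' ∧ Phi D k N z ≤ Phi (D ∪ A) k' N z := by
  induction A using Finset.induction_on with
  | empty => intro D k hD; exact ⟨k, by simpa using hD, by simp⟩
  | insert a A haA ih =>
    intro D k hD
    obtain ⟨k', hk', hle⟩ := ih (fun b hb => hA b (Finset.mem_insert_of_mem hb)) D k hD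
    by_cases h : a ∈ D ∪ A
    · refine ⟨k', ?_, ?_⟩
      · rw [Finset.union_insert, Finset.insert_eq_of_mem h]; exact hk'
      · rw [Finset.union_insert, Finset.insert_eq_of_mem h]; exact hle
    · refine ⟨k' + 1, ?_, ?_⟩
      · rw [Finset.union_insert, Finset.card_insert_of_notMem h]; omega
      · rw [Finset.union_insert]
        exact hle.trans (Phi_step z hz _ k' N hk' a h (hA a (Finset.mem_insert_self _ _)))

/-- transplanting the top level set -/
theorem Phi_transplant (x : ℕ → 𝕜) (A A' : Finset ℕ) (ε η : ℕ → 𝕜) (hcard : A.card = A'.card)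
    (hdis : Disjoint A A') (hx0 : ∀ n ∈ A ∪ A', x n = 0)
    (hε : ∀ n ∈ A, ‖ε n‖ = 1) (hη : ∀ n ∈ A', ‖η n‖ = 1)
    (D : Finset ℕ) (hAD : A ⊆ D) (k N : ℕ) :
    Phi D k N (fun n => x n + if n ∈ A then ε n else 0) =
      Phi ((D \ A) ∪ A') k N (fun n => x n + if n ∈ A' then η n else 0) := by
  have hxA : ∀ n ∈ A, x n = 0 := fun n hn => hx0 n (mem_union_left _ hn)
  have hxA' : ∀ n ∈ A', x n = 0 := fun n hn => hx0 n (mem_union_right _ hn)
  have hAA' : ∀ n ∈ A, n ∉ A' := fun n hn hn' => (Finset.disjoint_left.1 hdis) hn hn'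
  have h1 : sq D (fun n => x n + if n ∈ A then ε n else 0) =
      sq ((D \ A) ∪ A') (fun n => x n + if n ∈ A' then η n else 0) := by
    unfold sq
    congr 1
    have e1 : D = (D \ A) ∪ A := by
      rw [Finset.sdiff_union_self_eq_union, Finset.union_eq_left.2 hAD]
    have e2 : (D \ A) ∪ A' = ((D \ A) \ A') ∪ A' := by
      rw [Finset.sdiff_union_self_eq_union]
    have s1 : ∑ n ∈ D, ‖x n + if n ∈ A then ε n else 0‖ ^ 2 =
        ∑ n ∈ D \ A, ‖x n‖ ^ 2 + A.card := by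
      conv_lhs => rw [e1]
      rw [Finset.sum_union Finset.sdiff_disjoint]
      congr 1
      · refine Finset.sum_congr rfl fun n hn => ?_
        rw [if_neg (Finset.mem_sdiff.1 hn).2, add_zero]
      · have : ∀ n ∈ A, ‖x n + if n ∈ A then ε n else 0‖ ^ 2 = 1 := by
          intro n hn
          rw [if_pos hn, hxA n hn, zero_add, hε n hn, one_pow]
        rw [Finset.sum_congr rfl this]; simp
    have s2 : ∑ n ∈ (D \ A) ∪ A', ‖x n + if n ∈ A' then η n else 0‖ ^ 2 =
        ∑ n ∈ (D \ A) \ A', ‖x n‖ ^ 2 + A'.card := by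
      rw [e2, Finset.sum_union Finset.sdiff_disjoint]
      congr 1
      · refine Finset.sum_congr rfl fun n hn => ?_
        rw [if_neg (Finset.mem_sdiff.1 hn).2, add_zero]
      · have : ∀ n ∈ A', ‖x n + if n ∈ A' then η n else 0‖ ^ 2 = 1 := by
          intro n hn
          rw [if_pos hn, hxA' n hn, zero_add, hη n hn, one_pow]
        rw [Finset.sum_congr rfl this]; simp
    have s3 : ∑ n ∈ (D \ A) \ A', ‖x n‖ ^ 2 = ∑ n ∈ D \ A, ‖x n‖ ^ 2 := by
      refine Finset.sum_subset Finset.sdiff_subset fun n hn hn' => ?_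
      have : n ∈ A' := by
        by_contra h
        exact hn' (Finset.mem_sdiff.2 ⟨hn, h⟩)
      rw [hxA' n this]; simp
    rw [s1, s2, s3, hcard]
  have h2 : T D k N (fun n => x n + if n ∈ A then ε n else 0) =
      T ((D \ A) ∪ A') k N (fun n => x n + if n ∈ A' then η n else 0) := by
    unfold T
    have t1 : ∑ n ∈ range N \ D, ((c k n : ℝ) : 𝕜) * (x n + if n ∈ A then ε n else 0) =
        ∑ n ∈ range N \ (D \ A), ((c k n : ℝ) : 𝕜) * x n := by
      have : ∀ n ∈ range N \ D, ((c k n : ℝ) : 𝕜) * (x n + if n ∈ A then ε n else 0) =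
          ((c k n : ℝ) : 𝕜) * x n := by
        intro n hn
        rw [if_neg (fun h => (Finset.mem_sdiff.1 hn).2 (hAD h)), add_zero]
      rw [Finset.sum_congr rfl this]
      refine Finset.sum_subset (Finset.sdiff_subset_sdiff subset_rfl Finset.sdiff_subset)
        fun n hn hn' => ?_
      have : n ∈ A := by
        by_contra h
        simp only [mem_sdiff, not_and, not_not] at hn hn'
        exact h (hn.2 (hn' hn.1))
      rw [hxA n this, mul_zero]
    have t2 : ∑ n ∈ range N \ ((D \ A) ∪ A'),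
        ((c k n : ℝ) : 𝕜) * (x n + if n ∈ A' then η n else 0) =
        ∑ n ∈ range N \ (D \ A), ((c k n : ℝ) : 𝕜) * x n := by
      have : ∀ n ∈ range N \ ((D \ A) ∪ A'),
          ((c k n : ℝ) : 𝕜) * (x n + if n ∈ A' then η n else 0) = ((c k n : ℝ) : 𝕜) * x n := by
        intro n hn
        rw [if_neg (fun h => (Finset.mem_sdiff.1 hn).2 (mem_union_right _ h)), add_zero]
      rw [Finset.sum_congr rfl this]
      refine Finset.sum_subset (Finset.sdiff_subset_sdiff subset_rfl Finset.subset_union_left)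
        fun n hn hn' => ?_
      have : n ∈ A' := by
        by_contra h
        simp only [mem_sdiff, mem_union, not_and, not_not] at hn hn'
        rcases hn' hn.1 with h3 | h3
        · exact h (absurd (hn.2 h3.1) h3.2)
        · exact h h3
      rw [hxA' n this, mul_zero]
    rw [t1, t2]
  unfold Phi
  rw [h1, h2]

/-- one inequality of Property (A), at the level of `Phi` -/
theorem Phi_le (x : ℕ → 𝕜) (hx : ∀ n, ‖x n‖ ≤ 1) (A A' : Finset ℕ) (ε η : ℕ → 𝕜)
    (hcard : A.card = A'.card)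
    (hdis : Disjoint A A') (hx0 : ∀ n ∈ A ∪ A', x n = 0)
    (hε : ∀ n ∈ A, ‖ε n‖ = 1) (hη : ∀ n ∈ A', ‖η n‖ = 1)
    (D : Finset ℕ) (k N : ℕ) (hD : D.card ≤ k) :
    ∃ D' k', D'.card ≤ k' ∧ Phi D k N (fun n => x n + if n ∈ A then ε n else 0) ≤
      Phi D' k' N (fun n => x n + if n ∈ A' then η n else 0) := by
  have hz : ∀ n, ‖x n + if n ∈ A then ε n else 0‖ ≤ 1 := by
    intro n
    split_ifs with h
    · rw [hx0 n (mem_union_left _ h), zero_add, hε n h]
    · rw [add_zero]; exact hx n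
  have hA : ∀ a ∈ A, ‖x a + if a ∈ A then ε a else 0‖ = 1 := by
    intro n h
    rw [if_pos h, hx0 n (mem_union_left _ h), zero_add, hε n h]
  obtain ⟨k', hk', hle⟩ := Phi_union (fun n => x n + if n ∈ A then ε n else 0) hz N A hA D k hD
  refine ⟨((D ∪ A) \ A) ∪ A', k', ?_, ?_⟩
  · have h1 : ((D ∪ A) \ A).card + A.card = (D ∪ A).card :=
      Finset.card_sdiff_add_card_eq_card Finset.subset_union_right
    have h2 := Finset.card_union_le ((D ∪ A) \ A) A'
    omega
  · refine hle.trans (le_of_eq ?_)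
    exact Phi_transplant x A A' ε η hcard hdis hx0 hε hη (D ∪ A) Finset.subset_union_right k' N

end Phi

/-! ### The space -/

section Space

variable (𝕜 : Type) [RCLike 𝕜]

/-- Index set of norming functionals. -/
structure Idx where
  D : Finset ℕ
  k : ℕ
  N : ℕ
  g : ℕ → 𝕜
  θ : 𝕜
  hD : D.card ≤ k
  hg : ∑ n ∈ D, ‖g n‖ ^ 2 ≤ 1
  hθ : ‖θ‖ ≤ 1

variable {𝕜}

/-- the coefficients of the functional with index `i` -/
noncomputable def wt (i : Idx 𝕜) (n : ℕ) : 𝕜 :=
  (if n ∈ i.D then i.g n else 0) +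
    i.θ * (1 / 4 : ℝ) * (if n ∈ range i.N \ i.D then ((c i.k n : ℝ) : 𝕜) else 0)

theorem norm_wt_le (i : Idx 𝕜) (n : ℕ) : ‖wt i n‖ ≤ 1 := by
  unfold wt
  by_cases h : n ∈ i.D
  · have h' : n ∉ range i.N \ i.D := fun h2 => (Finset.mem_sdiff.1 h2).2 h
    rw [if_pos h, if_neg h', mul_zero, add_zero]
    have h1 : ‖i.g n‖ ^ 2 ≤ 1 :=
      (Finset.single_le_sum (f := fun n => ‖i.g n‖ ^ 2) (fun _ _ => by positivity) h).trans i.hg
    exact (sq_le_one_iff₀ (norm_nonneg _)).1 h1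
  · rw [if_neg h, zero_add, norm_mul, norm_mul, RCLike.norm_ofReal]
    have h2 : ‖(if n ∈ range i.N \ i.D then ((c i.k n : ℝ) : 𝕜) else 0)‖ ≤ 1 := by
      split_ifs
      · rw [RCLike.norm_ofReal, abs_of_pos (c_pos _ _)]; exact c_le_one _ _
      · simp
    calc ‖i.θ‖ * |1 / 4| * ‖(if n ∈ range i.N \ i.D then ((c i.k n : ℝ) : 𝕜) else 0)‖
        ≤ 1 * |1 / 4| * 1 := by
          gcongr
          exact i.hθ
      _ ≤ 1 := by norm_num

theorem sum_wt (i : Idx 𝕜) (z : ℕ → 𝕜) : ∑ n ∈ i.D ∪ range i.N, wt i n * z n =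
    ∑ n ∈ i.D, i.g n * z n + i.θ * (1 / 4 : ℝ) * T i.D i.k i.N z := by
  unfold wt T
  simp only [add_mul, Finset.sum_add_distrib]
  congr 1
  · simp only [ite_mul, zero_mul]
    rw [Finset.sum_ite_mem, Finset.union_inter_cancel_left]
  · simp only [mul_assoc, ← Finset.mul_sum, ite_mul, zero_mul]
    congr 2
    rw [Finset.sum_ite_mem]
    congr 1
    ext n
    simp only [mem_inter, mem_union, mem_sdiff, mem_range]
    tauto

variable (𝕜)

/-- the ambient space -/
abbrev Amb : Type := lp (fun _ : Idx 𝕜 => 𝕜) ⊤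

variable {𝕜}

/-- the basis vectors -/
noncomputable def e (n : ℕ) : Amb 𝕜 :=
  ⟨fun i => wt i n, memℓp_infty ⟨1, by rintro _ ⟨i, rfl⟩; exact norm_wt_le i n⟩⟩

theorem e_apply (n : ℕ) (i : Idx 𝕜) : (e n : Amb 𝕜) i = wt i n := rfl

theorem norm_e_le (n : ℕ) : ‖(e n : Amb 𝕜)‖ ≤ 1 :=
  lp.norm_le_of_forall_le (by norm_num) fun i => norm_wt_le i n

/-- evaluation at `i` -/
noncomputable def ev (i : Idx 𝕜) : Amb 𝕜 →L[𝕜] 𝕜 :=
  LinearMap.mkContinuous
    { toFun := fun f => f i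
      map_add' := fun f g => rfl
      map_smul' := fun a f => rfl } 1
    (fun f => by
      rw [one_mul]
      exact lp.norm_apply_le_norm (by simp) f i)

theorem ev_apply (i : Idx 𝕜) (f : Amb 𝕜) : ev i f = f i := rfl

theorem norm_ev_le (i : Idx 𝕜) : ‖ev i‖ ≤ 1 :=
  LinearMap.mkContinuous_norm_le _ (by norm_num) _

/-- the index of the `n`-th coordinate functional -/
def ci (n : ℕ) : Idx 𝕜 where
  D := {n}
  k := 1
  N := 0
  g := fun _ => 1
  θ := 0
  hD := by simp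
  hg := by simp
  hθ := by simp

theorem wt_ci (n m : ℕ) : wt (ci n : Idx 𝕜) m = if n = m then 1 else 0 := by
  unfold wt ci
  simp only [mem_singleton, zero_mul, add_zero, eq_comm]

variable (𝕜)

/-- the space -/
noncomputable abbrev Sp : Submodule 𝕜 (Amb 𝕜) := (Submodule.span 𝕜 (Set.range (e (𝕜 := 𝕜)))).topologicalClosure

variable {𝕜}

theorem apply_eq (z : Amb 𝕜) (hz : z ∈ Sp 𝕜) (i : Idx 𝕜) :
    z i = ∑ n ∈ i.D ∪ range i.N, wt i n * z (ci n) := by
  let L : Amb 𝕜 →L[𝕜] 𝕜 := ev i - ∑ n ∈ i.D ∪ range i.N, wt i n • ev (ci n)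
  have hL : ∀ w : Amb 𝕜, L w = w i - ∑ n ∈ i.D ∪ range i.N, wt i n * w (ci n) := by
    intro w
    simp [L, ev_apply]
  have hker : Sp 𝕜 ≤ LinearMap.ker (L : Amb 𝕜 →ₗ[𝕜] 𝕜) := by
    refine Submodule.topologicalClosure_minimal _ ?_ L.isClosed_ker
    rw [Submodule.span_le]
    rintro _ ⟨m, rfl⟩
    simp only [SetLike.mem_coe, LinearMap.mem_ker, ContinuousLinearMap.coe_coe]
    rw [hL, e_apply, sub_eq_zero]
    simp only [e_apply, wt_ci, mul_ite, mul_one, mul_zero]
    rw [Finset.sum_ite_eq']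
    split_ifs with h
    · rfl
    · unfold wt
      rw [Finset.mem_union, not_or] at h
      rw [if_neg h.1, if_neg (fun h2 => h.2 (Finset.mem_sdiff.1 h2).1)]
      simp
  have := hker hz
  rw [LinearMap.mem_ker, ContinuousLinearMap.coe_coe, hL, sub_eq_zero] at this
  exact this

/-- coordinates of a vector -/
noncomputable def co (z : Amb 𝕜) (n : ℕ) : 𝕜 := z (ci n)

theorem apply_eq' (z : Amb 𝕜) (hz : z ∈ Sp 𝕜) (i : Idx 𝕜) :
    z i = ∑ n ∈ i.D, i.g n * co z n + i.θ * (1 / 4 : ℝ) * T i.D i.k i.N (co z) := by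
  rw [apply_eq z hz i]
  exact sum_wt i (co z)

theorem norm_apply_le_Phi (z : Amb 𝕜) (hz : z ∈ Sp 𝕜) (i : Idx 𝕜) :
    ‖z i‖ ≤ Phi i.D i.k i.N (co z) := by
  rw [apply_eq' z hz i]
  unfold Phi
  refine (norm_add_le _ _).trans (add_le_add ?_ ?_)
  · unfold sq
    refine (norm_sum_le _ _).trans ?_
    simp only [norm_mul]
    refine (Real.sum_mul_le_sqrt_mul_sqrt _ _ _).trans ?_
    refine mul_le_of_le_one_left (Real.sqrt_nonneg _) ?_
    rw [Real.sqrt_le_one]
    exact i.hg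
  · rw [norm_mul, norm_mul, RCLike.norm_ofReal]
    have : |(1 / 4 : ℝ)| = 1 / 4 := by norm_num
    rw [this]
    have h1 := i.hθ
    have h2 := norm_nonneg (T i.D i.k i.N (co z))
    nlinarith [mul_nonneg (norm_nonneg i.θ) h2]

theorem Phi_le_norm (z : Amb 𝕜) (hz : z ∈ Sp 𝕜) (D : Finset ℕ) (k N : ℕ) (hD : D.card ≤ k) :
    Phi D k N (co z) ≤ ‖z‖ := by
  set s := sq D (co z) with hs
  have hs0 : 0 ≤ s := Real.sqrt_nonneg _
  have hss : s * s = ∑ n ∈ D, ‖co z n‖ ^ 2 := by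
    rw [hs]; unfold sq
    exact Real.mul_self_sqrt (by positivity)
  set w := T D k N (co z) with hw
  let i : Idx 𝕜 :=
    { D := D
      k := k
      N := N
      g := fun n => (starRingEnd 𝕜) (co z n) * ((s⁻¹ : ℝ) : 𝕜)
      θ := (starRingEnd 𝕜) w * ((‖w‖⁻¹ : ℝ) : 𝕜)
      hD := hD
      hg := by
        simp only [norm_mul, RCLike.norm_conj, RCLike.norm_ofReal, mul_pow, sq_abs]
        rw [← Finset.sum_mul, ← hss]
        by_cases h : s = 0
        · rw [h]; simp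
        · field_simp; rfl
      hθ := by
        rw [norm_mul, RCLike.norm_conj, RCLike.norm_ofReal, abs_of_nonneg (by positivity)]
        by_cases h : ‖w‖ = 0
        · rw [h]; simp
        · field_simp; rfl }
  have h1 : z i = ((Phi D k N (co z) : ℝ) : 𝕜) := by
    rw [apply_eq' z hz i]
    have e1 : ∑ n ∈ i.D, i.g n * co z n = ((s : ℝ) : 𝕜) := by
      have : ∀ n ∈ D, i.g n * co z n = ((‖co z n‖ ^ 2 * s⁻¹ : ℝ) : 𝕜) := by
        intro n _
        simp only [i]
        rw [mul_right_comm, RCLike.conj_mul]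
        push_cast
        rfl
      show ∑ n ∈ D, i.g n * co z n = _
      rw [Finset.sum_congr rfl this, ← RCLike.ofReal_sum, ← Finset.sum_mul, ← hss]
      congr 1
      by_cases h : s = 0
      · rw [h]; simp
      · field_simp
    have e2 : i.θ * (1 / 4 : ℝ) * T i.D i.k i.N (co z) = ((1 / 4 * ‖w‖ : ℝ) : 𝕜) := by
      show ((starRingEnd 𝕜) w * ((‖w‖⁻¹ : ℝ) : 𝕜)) * (1 / 4 : ℝ) * w = _
      have : ((starRingEnd 𝕜) w * ((‖w‖⁻¹ : ℝ) : 𝕜)) * ((1 / 4 : ℝ) : 𝕜) * w =
          ((starRingEnd 𝕜) w * w) * ((‖w‖⁻¹ : ℝ) : 𝕜) * ((1 / 4 : ℝ) : 𝕜) := by ring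
      rw [this, RCLike.conj_mul]
      by_cases h : ‖w‖ = 0
      · rw [h]; simp
      · push_cast
        field_simp
    rw [e1, e2]
    unfold Phi
    push_cast
    rfl
  have h2 : ‖z i‖ = Phi D k N (co z) := by
    rw [h1, RCLike.norm_ofReal, abs_of_nonneg]
    unfold Phi
    positivity
  rw [← h2]
  exact lp.norm_apply_le_norm (by simp) z i

theorem co_add (z w : Amb 𝕜) (n : ℕ) : co (z + w) n = co z n + co w n := rfl

theorem co_smul (a : 𝕜) (z : Amb 𝕜) (n : ℕ) : co (a • z) n = a * co z n := rfl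

theorem co_e (m n : ℕ) : co (e m : Amb 𝕜) n = if n = m then 1 else 0 := wt_ci n m

theorem co_sum (A : Finset ℕ) (ε : ℕ → 𝕜) (n : ℕ) :
    co (∑ m ∈ A, ε m • (e m : Amb 𝕜)) n = if n ∈ A then ε n else 0 := by
  have : co (∑ m ∈ A, ε m • (e m : Amb 𝕜)) n = ev (ci n : Idx 𝕜) (∑ m ∈ A, ε m • (e m : Amb 𝕜)) := rfl
  rw [this, map_sum]
  simp only [map_smul, ev_apply, e_apply, wt_ci, smul_eq_mul, mul_ite, mul_one, mul_zero]
  rw [Finset.sum_ite_eq]

theorem e_mem (n : ℕ) : (e n : Amb 𝕜) ∈ Sp 𝕜 :=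
  Submodule.le_topologicalClosure _ (Submodule.subset_span ⟨n, rfl⟩)

variable (𝕜)

/-- the basis of the space -/
noncomputable def basis : MBasis 𝕜 (Sp 𝕜) where
  vec n := ⟨e n, e_mem n⟩
  coord n := (ev (ci n)).comp (Sp 𝕜).subtypeL
  biorth := fun i j => wt_ci i j
  total := by
    rw [Submodule.eq_top_iff']
    rintro ⟨x, hx⟩
    have hx' : x ∈ closure (Submodule.span 𝕜 (Set.range (e (𝕜 := 𝕜))) : Set (Amb 𝕜)) := hx
    rw [← SetLike.mem_coe, Submodule.topologicalClosure_coe, closure_subtype]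
    refine closure_mono ?_ hx'
    intro y hy
    have hy2 : y ∈ Sp 𝕜 := Submodule.le_topologicalClosure _ hy
    refine ⟨⟨y, hy2⟩, ?_, rfl⟩
    have hmap : Submodule.span 𝕜 (Set.range (e (𝕜 := 𝕜))) =
        (Submodule.span 𝕜 (Set.range fun n => (⟨e n, e_mem n⟩ : Sp 𝕜))).map (Sp 𝕜).subtype := by
      rw [Submodule.map_span, ← Set.range_comp]
      rfl
    rw [SetLike.mem_coe, hmap] at hy
    obtain ⟨w, hw, hwy⟩ := hy
    have : w = ⟨y, hy2⟩ := Subtype.ext hwy
    rw [← this]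
    exact hw
  separating := by
    rintro ⟨x, hx⟩ h
    apply Subtype.ext
    show x = 0
    ext i
    rw [apply_eq x hx i]
    refine Finset.sum_eq_zero fun n _ => ?_
    have : x (ci n) = 0 := h n
    rw [this, mul_zero]
  bounded := by
    refine ⟨1, fun n => ⟨norm_e_le n, ?_⟩⟩
    refine (ContinuousLinearMap.opNorm_comp_le _ _).trans ?_
    calc ‖ev (ci n : Idx 𝕜)‖ * ‖(Sp 𝕜).subtypeL‖ ≤ 1 * 1 :=
          mul_le_mul (norm_ev_le _) (Submodule.norm_subtypeL_le _)
            (ContinuousLinearMap.opNorm_nonneg _) zero_le_one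
      _ = 1 := one_mul 1

variable {𝕜}

theorem norm_le_of_apply (w : Sp 𝕜) (C : ℝ) (hC : 0 ≤ C) (h : ∀ i, ‖(w : Amb 𝕜) i‖ ≤ C) :
    ‖w‖ ≤ C := by
  rw [Submodule.coe_norm]
  exact lp.norm_le_of_forall_le hC h

theorem propertyA_le (x : Sp 𝕜) (A A' : Finset ℕ) (ε η : ℕ → 𝕜)
    (hx : ∀ n, ‖(basis 𝕜).coord n x‖ ≤ 1) (hcard : A.card = A'.card) (hdis : Disjoint A A')
    (hx0 : ∀ n ∈ A ∪ A', (basis 𝕜).coord n x = 0)
    (hε : ∀ n ∈ A, ‖ε n‖ = 1) (hη : ∀ n ∈ A', ‖η n‖ = 1) :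
    ‖x + ∑ n ∈ A, ε n • (basis 𝕜).vec n‖ ≤ ‖x + ∑ n ∈ A', η n • (basis 𝕜).vec n‖ := by
  have hcoe : ∀ (B : Finset ℕ) (δ : ℕ → 𝕜), ((x + ∑ n ∈ B, δ n • (basis 𝕜).vec n : Sp 𝕜) : Amb 𝕜) =
      (x : Amb 𝕜) + ∑ n ∈ B, δ n • (e n : Amb 𝕜) := by
    intro B δ
    push_cast
    rfl
  have hco : ∀ (B : Finset ℕ) (δ : ℕ → 𝕜),
      co (((x + ∑ n ∈ B, δ n • (basis 𝕜).vec n : Sp 𝕜) : Amb 𝕜)) =
        fun n => co (x : Amb 𝕜) n + if n ∈ B then δ n else 0 := by
    intro B δ
    rw [hcoe]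
    funext n
    rw [co_add, co_sum]
  refine norm_le_of_apply _ _ (norm_nonneg _) fun i => ?_
  refine (norm_apply_le_Phi _ (Subtype.mem _) i).trans ?_
  rw [hco]
  obtain ⟨D', k', hk', hle⟩ := Phi_le (co (x : Amb 𝕜)) hx A A' ε η hcard hdis hx0 hε hη
    i.D i.k i.N i.hD
  refine hle.trans ?_
  rw [← hco]
  rw [Submodule.coe_norm]
  exact Phi_le_norm _ (Subtype.mem _) D' k' i.N hk'

theorem propertyA_basis : PropertyA (basis 𝕜) := by
  intro x A A' ε η hx hcard hdis hx0 hε hη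
  refine le_antisymm (propertyA_le x A A' ε η hx hcard hdis hx0 hε hη) ?_
  exact propertyA_le x A' A η ε hx hcard.symm hdis.symm (by rwa [Finset.union_comm]) hη hε

/-! ### Failure of unconditionality -/

theorem alt_sum (N : ℕ) : ∀ (b : ℕ → ℝ), Antitone b → (∀ n, 0 ≤ b n) →
    0 ≤ ∑ n ∈ range N, (-1) ^ n * b n ∧ ∑ n ∈ range N, (-1) ^ n * b n ≤ b 0 := by
  induction N with
  | zero => intro b _ h0; simp [h0 0]
  | succ N ih =>
    intro b hb h0
    obtain ⟨h1, h2⟩ := ih (fun n => b (n + 1)) (fun m n h => hb (by omega)) (fun n => h0 _)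
    rw [Finset.sum_range_succ']
    have : ∑ n ∈ range N, (-1 : ℝ) ^ (n + 1) * b (n + 1) =
        -∑ n ∈ range N, (-1 : ℝ) ^ n * b (n + 1) := by
      rw [← Finset.sum_neg_distrib]
      refine Finset.sum_congr rfl fun n _ => ?_
      ring
    rw [this]
    simp only [pow_zero, one_mul]
    have h3 : b 1 ≤ b 0 := hb (by omega)
    constructor <;> [skip; skip] <;> simp only [zero_add] at * <;> linarith

theorem sum_inv_sqrt_le (k : ℕ) : ∑ n ∈ range k, (√((n : ℝ) + 1))⁻¹ ≤ 2 * √(k : ℝ) := by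
  induction k with
  | zero => simp
  | succ k ih =>
    rw [Finset.sum_range_succ]
    have h1 : 0 < √((k : ℝ) + 1) := by positivity
    have h0 : 0 ≤ √(k : ℝ) := by positivity
    have h2 : √((k : ℝ) + 1) * √((k : ℝ) + 1) = k + 1 := Real.mul_self_sqrt (by positivity)
    have h3 : √(k : ℝ) * √(k : ℝ) = k := Real.mul_self_sqrt (by positivity)
    have h4 : √(k : ℝ) ≤ √((k : ℝ) + 1) := Real.sqrt_le_sqrt (by linarith)
    have h5 : (√((k : ℝ) + 1))⁻¹ ≤ 2 * (√((k : ℝ) + 1) - √(k : ℝ)) := by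
      rw [inv_le_iff_one_le_mul₀ h1]
      nlinarith [sq_nonneg (√((k : ℝ) + 1) - √(k : ℝ))]
    push_cast
    linarith

/-- the harmonic sum -/
noncomputable def H (M : ℕ) : ℝ := ∑ n ∈ range M, 1 / ((n : ℝ) + 1)

/-- alternating coefficients -/
noncomputable def al (n : ℕ) : ℝ := (-1) ^ n * (√((n : ℝ) + 1))⁻¹

theorem al_sq (n : ℕ) : |al n| ^ 2 = 1 / ((n : ℝ) + 1) := by
  unfold al
  rw [sq_abs, mul_pow, ← pow_mul, mul_comm n 2, pow_mul, neg_one_sq, one_pow, one_mul, inv_pow,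
    Real.sq_sqrt (by positivity), one_div]

theorem abs_al (n : ℕ) : |al n| = (√((n : ℝ) + 1))⁻¹ := by
  unfold al
  rw [abs_mul, abs_pow, abs_neg, abs_one, one_pow, one_mul, abs_of_nonneg (by positivity)]

variable (𝕜)

/-- test sequence -/
noncomputable def tz (M : ℕ) (n : ℕ) : 𝕜 := if n ∈ range M then ((al n : ℝ) : 𝕜) else 0

theorem sq_tz_le (M : ℕ) (D : Finset ℕ) : sq D (tz 𝕜 M) ≤ √(H M) := by
  unfold sq H
  apply Real.sqrt_le_sqrt
  have : ∀ n, ‖tz 𝕜 M n‖ ^ 2 = if n ∈ range M then 1 / ((n : ℝ) + 1) else 0 := by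
    intro n
    unfold tz
    split_ifs
    · rw [RCLike.norm_ofReal, al_sq]
    · simp
  simp only [this]
  rw [Finset.sum_ite_mem]
  exact Finset.sum_le_sum_of_subset_of_nonneg Finset.inter_subset_right
    fun n _ _ => by positivity

theorem norm_T_tz_le (M : ℕ) (D : Finset ℕ) (k N : ℕ) (hD : D.card ≤ k) :
    ‖T D k N (tz 𝕜 M)‖ ≤ 4 := by
  have h1 : T D k N (tz 𝕜 M) = ∑ n ∈ range N, ((c k n : ℝ) : 𝕜) * tz 𝕜 M n -
      ∑ n ∈ range N ∩ D, ((c k n : ℝ) : 𝕜) * tz 𝕜 M n := by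
    unfold T
    rw [eq_sub_iff_add_eq, add_comm, ← Finset.sum_union (by
      rw [Finset.disjoint_left]
      intro n hn hn'
      exact (Finset.mem_sdiff.1 hn').2 (Finset.mem_inter.1 hn).2)]
    congr 1
    ext n
    simp only [mem_union, mem_inter, mem_sdiff, mem_range]
    tauto
  have h2 : ‖∑ n ∈ range N, ((c k n : ℝ) : 𝕜) * tz 𝕜 M n‖ ≤ 1 := by
    have e1 : ∑ n ∈ range N, ((c k n : ℝ) : 𝕜) * tz 𝕜 M n =
        ((∑ n ∈ range (min N M), (-1) ^ n * (c k n * (√((n : ℝ) + 1))⁻¹) : ℝ) : 𝕜) := by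
      unfold tz
      simp only [mul_ite, mul_zero]
      rw [Finset.sum_ite_mem]
      have : range N ∩ range M = range (min N M) := by
        ext n; simp
      rw [this]
      push_cast
      refine Finset.sum_congr rfl fun n _ => ?_
      unfold al
      push_cast
      ring
    rw [e1, RCLike.norm_ofReal]
    have hb : Antitone (fun n : ℕ => c k n * (√((n : ℝ) + 1))⁻¹) := by
      apply antitone_nat_of_succ_le
      intro n
      have h3 := c_anti k n
      have h4 : (√(((n + 1 : ℕ) : ℝ) + 1))⁻¹ ≤ (√((n : ℝ) + 1))⁻¹ := by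
        apply inv_anti₀ (by positivity)
        apply Real.sqrt_le_sqrt
        push_cast; linarith
      exact mul_le_mul h3 h4 (by positivity) (c_pos k n).le
    obtain ⟨h3, h4⟩ := alt_sum (min N M) _ hb
      (fun n => mul_nonneg (c_pos k n).le (by positivity))
    rw [abs_of_nonneg h3]
    refine h4.trans ?_
    have := c_le_one k 0
    simp
    exact this
  have h3 : ‖∑ n ∈ range N ∩ D, ((c k n : ℝ) : 𝕜) * tz 𝕜 M n‖ ≤ 3 := by
    refine (norm_sum_le _ _).trans ?_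
    have hk : 0 < √((k : ℝ) + 1) := by positivity
    have hterm : ∀ n, ‖((c k n : ℝ) : 𝕜) * tz 𝕜 M n‖ ≤ c k n * (√((n : ℝ) + 1))⁻¹ := by
      intro n
      rw [norm_mul, RCLike.norm_ofReal, abs_of_pos (c_pos k n)]
      refine mul_le_mul_of_nonneg_left ?_ (c_pos k n).le
      unfold tz
      split_ifs
      · rw [RCLike.norm_ofReal, abs_al]
      · rw [norm_zero]; positivity
    calc ∑ n ∈ range N ∩ D, ‖((c k n : ℝ) : 𝕜) * tz 𝕜 M n‖
        ≤ ∑ n ∈ D, c k n * (√((n : ℝ) + 1))⁻¹ := by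
          refine (Finset.sum_le_sum fun n _ => hterm n).trans ?_
          exact Finset.sum_le_sum_of_subset_of_nonneg Finset.inter_subset_right
            fun n _ _ => mul_nonneg (c_pos k n).le (by positivity)
      _ ≤ ∑ n ∈ D, ((if n ∈ range k then (√((k : ℝ) + 1))⁻¹ * (√((n : ℝ) + 1))⁻¹ else 0) +
            ((k : ℝ) + 1)⁻¹) := by
          refine Finset.sum_le_sum fun n _ => ?_
          by_cases hn : n ∈ range k
          · rw [if_pos hn]
            have := c_le k n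
            have h5 : 0 ≤ (√((n : ℝ) + 1))⁻¹ := by positivity
            have h6 : 0 ≤ ((k : ℝ) + 1)⁻¹ := by positivity
            nlinarith
          · rw [if_neg hn, zero_add]
            rw [Finset.mem_range, not_lt] at hn
            have h5 := c_le k n
            have h6 : (√((n : ℝ) + 1))⁻¹ ≤ (√((k : ℝ) + 1))⁻¹ := by
              apply inv_anti₀ hk
              apply Real.sqrt_le_sqrt
              have : (k : ℝ) ≤ n := by exact_mod_cast hn
              linarith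
            calc c k n * (√((n : ℝ) + 1))⁻¹ ≤ (√((k : ℝ) + 1))⁻¹ * (√((k : ℝ) + 1))⁻¹ :=
                  mul_le_mul h5 h6 (by positivity) (by positivity)
              _ = ((k : ℝ) + 1)⁻¹ := by
                  rw [← mul_inv, Real.mul_self_sqrt (by positivity)]
      _ ≤ 3 := by
          rw [Finset.sum_add_distrib, Finset.sum_ite_mem, Finset.sum_const, nsmul_eq_mul]
          have h7 : ∑ n ∈ D ∩ range k, (√((k : ℝ) + 1))⁻¹ * (√((n : ℝ) + 1))⁻¹ ≤ 2 := by
            rw [← Finset.mul_sum]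
            have h8 : ∑ n ∈ D ∩ range k, (√((n : ℝ) + 1))⁻¹ ≤ 2 * √((k : ℝ) + 1) := by
              refine (Finset.sum_le_sum_of_subset_of_nonneg Finset.inter_subset_right
                fun n _ _ => by positivity).trans ?_
              refine (sum_inv_sqrt_le k).trans ?_
              have : √(k : ℝ) ≤ √((k : ℝ) + 1) := Real.sqrt_le_sqrt (by linarith)
              linarith
            calc (√((k : ℝ) + 1))⁻¹ * ∑ n ∈ D ∩ range k, (√((n : ℝ) + 1))⁻¹
                ≤ (√((k : ℝ) + 1))⁻¹ * (2 * √((k : ℝ) + 1)) := by gcongr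
              _ = 2 := by field_simp
          have h9 : (D.card : ℝ) * ((k : ℝ) + 1)⁻¹ ≤ 1 := by
            have : (D.card : ℝ) ≤ k := by exact_mod_cast hD
            rw [← div_eq_mul_inv, div_le_one (by positivity)]
            linarith
          linarith
  rw [h1]
  refine (norm_sub_le _ _).trans ?_
  linarith

/-- test vectors -/
noncomputable def tv (M : ℕ) : Sp 𝕜 := ∑ n ∈ range M, ((al n : ℝ) : 𝕜) • (basis 𝕜).vec n

theorem co_tv (M : ℕ) : co ((tv 𝕜 M : Sp 𝕜) : Amb 𝕜) = tz 𝕜 M := by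
  have : ((tv 𝕜 M : Sp 𝕜) : Amb 𝕜) = ∑ n ∈ range M, ((al n : ℝ) : 𝕜) • (e n : Amb 𝕜) := by
    unfold tv
    push_cast
    rfl
  rw [this]
  funext n
  rw [co_sum]
  rfl

theorem norm_tv_le (M : ℕ) : ‖tv 𝕜 M‖ ≤ √(H M) + 1 := by
  refine norm_le_of_apply _ _ (by positivity) fun i => ?_
  refine (norm_apply_le_Phi _ (Subtype.mem _) i).trans ?_
  rw [co_tv]
  unfold Phi
  have h1 := sq_tz_le 𝕜 M i.D
  have h2 := norm_T_tz_le 𝕜 M i.D i.k i.N i.hD
  linarith

/-- partial sums over the even indices -/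
noncomputable def Q (M : ℕ) : Sp 𝕜 →L[𝕜] Sp 𝕜 :=
  ∑ n ∈ range M, (if Even n then (1 : 𝕜) else 0) •
    ((basis 𝕜).coord n).smulRight ((basis 𝕜).vec n)

theorem Q_apply (M : ℕ) (x : Sp 𝕜) : Q 𝕜 M x =
    ∑ n ∈ range M, (if Even n then (basis 𝕜).coord n x else 0) • (basis 𝕜).vec n := by
  unfold Q
  rw [_root_.sum_apply]
  refine Finset.sum_congr rfl fun n _ => ?_
  split_ifs <;> simp

theorem norm_Q_tv_ge (M : ℕ) : H M / 8 ≤ ‖Q 𝕜 M (tv 𝕜 M)‖ := by
  have hco : co ((Q 𝕜 M (tv 𝕜 M) : Sp 𝕜) : Amb 𝕜) =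
      fun n => if n ∈ range M then (if Even n then ((al n : ℝ) : 𝕜) else 0) else 0 := by
    have : ((Q 𝕜 M (tv 𝕜 M) : Sp 𝕜) : Amb 𝕜) =
        ∑ n ∈ range M, (if Even n then (basis 𝕜).coord n (tv 𝕜 M) else 0) • (e n : Amb 𝕜) := by
      rw [Q_apply]
      push_cast
      rfl
    rw [this]
    funext n
    rw [co_sum]
    by_cases hn : n ∈ range M
    · rw [if_pos hn, if_pos hn]
      have h2 : (basis 𝕜).coord n (tv 𝕜 M) = ((al n : ℝ) : 𝕜) := by
        have h3 : (basis 𝕜).coord n (tv 𝕜 M) = co ((tv 𝕜 M : Sp 𝕜) : Amb 𝕜) n := rfl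
        rw [h3, co_tv]
        unfold tz
        rw [if_pos hn]
      rw [h2]
    · rw [if_neg hn, if_neg hn]
  have h1 := Phi_le_norm _ (Subtype.mem (Q 𝕜 M (tv 𝕜 M))) ∅ 0 M (by simp)
  rw [hco] at h1
  rw [Submodule.coe_norm]
  refine le_trans ?_ h1
  unfold Phi
  have h2 : 0 ≤ sq ∅ (fun n => if n ∈ range M then (if Even n then ((al n : ℝ) : 𝕜) else 0)
      else 0) := Real.sqrt_nonneg _
  have h3 : T ∅ 0 M (fun n => if n ∈ range M then (if Even n then ((al n : ℝ) : 𝕜) else 0)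
      else 0) = ((∑ n ∈ range M, if Even n then 1 / ((n : ℝ) + 1) else 0 : ℝ) : 𝕜) := by
    unfold T
    rw [Finset.sdiff_empty]
    push_cast
    refine Finset.sum_congr rfl fun n hn => ?_
    rw [if_pos hn]
    split_ifs with h
    · unfold c al
      rw [h.neg_one_pow, one_mul, ← RCLike.ofReal_mul]
      push_cast
      rw [← mul_inv, ← RCLike.ofReal_mul]
      simp only [add_zero]
      rw [Real.mul_self_sqrt (by positivity)]
      push_cast
      rw [one_div]
    · simp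
  have h4 : H M / 2 ≤ ∑ n ∈ range M, if Even n then 1 / ((n : ℝ) + 1) else 0 := by
    obtain ⟨h5, -⟩ := alt_sum M (fun n => 1 / ((n : ℝ) + 1)) (by
      apply antitone_nat_of_succ_le
      intro n
      apply one_div_le_one_div_of_le (by positivity)
      push_cast; linarith) (fun n => by positivity)
    have h6 : ∑ n ∈ range M, (-1 : ℝ) ^ n * (1 / ((n : ℝ) + 1)) =
        2 * (∑ n ∈ range M, if Even n then 1 / ((n : ℝ) + 1) else 0) - H M := by
      unfold H
      rw [Finset.mul_sum, ← Finset.sum_sub_distrib]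
      refine Finset.sum_congr rfl fun n _ => ?_
      split_ifs with h
      · rw [h.neg_one_pow]; ring
      · rw [(Nat.not_even_iff_odd.1 h).neg_one_pow]; ring
    linarith
  rw [h3, RCLike.norm_ofReal]
  have h7 := le_abs_self (∑ n ∈ range M, if Even n then 1 / ((n : ℝ) + 1) else 0)
  linarith

theorem not_unconditional : ¬ Unconditional (basis 𝕜) := by
  intro hU
  have hcompl : CompleteSpace (Sp 𝕜) :=
    (Submodule.isClosed_topologicalClosure _).completeSpace_coe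
  have hpt : ∀ x : Sp 𝕜, ∃ C, ∀ M : ℕ, ‖Q 𝕜 M x‖ ≤ C := by
    intro x
    have h1 := ((hU x).summable.indicator {n | Even n}).hasSum.tendsto_sum_nat
    have h2 := Metric.isBounded_range_of_tendsto _ h1
    obtain ⟨C, hC⟩ := h2.exists_norm_le
    refine ⟨C, fun M => ?_⟩
    have h3 : Q 𝕜 M x = ∑ i ∈ range M,
        {n | Even n}.indicator (fun n => ((basis 𝕜).coord n) x • (basis 𝕜).vec n) i := by
      rw [Q_apply]
      refine Finset.sum_congr rfl fun n _ => ?_
      by_cases h : Even n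
      · rw [if_pos h, Set.indicator_of_mem (show n ∈ {n | Even n} from h)]
      · rw [if_neg h, Set.indicator_of_notMem (show n ∉ {n | Even n} from h), zero_smul]
    rw [h3]
    exact hC _ ⟨M, rfl⟩
  obtain ⟨K, hK⟩ := banach_steinhaus hpt
  have hK0 : 0 ≤ K := (ContinuousLinearMap.opNorm_nonneg _).trans (hK 0)
  have hT : Filter.Tendsto H Filter.atTop Filter.atTop :=
    Real.tendsto_sum_range_one_div_nat_succ_atTop
  obtain ⟨M, hM⟩ := (hT.eventually_ge_atTop ((8 * K + 8) ^ 2)).exists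
  have h1 := norm_Q_tv_ge 𝕜 M
  have h2 := (Q 𝕜 M).le_opNorm (tv 𝕜 M)
  have h3 := norm_tv_le 𝕜 M
  have h4 : 8 * K + 8 ≤ √(H M) := Real.le_sqrt_of_sq_le hM
  have h5 : √(H M) * √(H M) = H M :=
    Real.mul_self_sqrt (le_trans (sq_nonneg (8 * K + 8)) hM)
  have h6 : ‖Q 𝕜 M‖ * ‖tv 𝕜 M‖ ≤ K * (√(H M) + 1) :=
    mul_le_mul (hK M) h3 (norm_nonneg _) hK0
  nlinarith

end Space

/-- Over any `RCLike` field (in particular over `ℝ` and over `ℂ`) there is a Banach space with a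
semi-normalized Markushevich basis that has Property (A) but is not unconditional. -/
theorem result (𝕜 : Type) [RCLike 𝕜] :
    ∃ (X : Type) (_ : NormedAddCommGroup X) (_ : NormedSpace 𝕜 X) (_ : CompleteSpace X)
      (B : MBasis 𝕜 X), PropertyA B ∧ ¬ Unconditional B :=
  ⟨Sp 𝕜, inferInstance, inferInstance,
    (Submodule.isClosed_topologicalClosure _).completeSpace_coe, basis 𝕜, propertyA_basis,
    not_unconditional 𝕜⟩

end Pool.Agent.Results.MP_e9a5f2_an.PropertyANotUnconditional
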